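import Mathlib

set_option autoImplicit false

namespace H413Gor

open MvPolynomial

section Fourier

variable {G : Type} [AddCommGroup G] [Fintype G] [DecidableEq G]

/-- evaluation of characters at `g`, a function on the dual group -/
noncomputable def ev (g : G) : AddChar G ℂ → ℂ := fun ψ => ψ g

lemma ev_zero : ev (0 : G) = 1 := by
  funext ψ; simp [ev]

lemma ev_add (g h : G) : ev (g + h) = ev g * ev h := by
  funext ψ; simp [ev, AddChar.map_add_eq_mul]

/-- Fourier coefficient -/
noncomputable def coef (g : G) : (AddChar G ℂ → ℂ) →ₗ[ℂ] ℂ where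
  toFun F := (Fintype.card G : ℂ)⁻¹ * ∑ ψ : AddChar G ℂ, ψ (-g) * F ψ
  map_add' F F' := by
    simp only [Pi.add_apply, mul_add, Finset.sum_add_distrib]
  map_smul' c F := by
    simp only [Pi.smul_apply, smul_eq_mul, RingHom.id_apply, Finset.mul_sum]
    refine Finset.sum_congr rfl fun ψ _ => ?_
    ring

lemma coef_ev (g h : G) : coef g (ev h) = if h = g then 1 else 0 := by
  have h1 : coef g (ev h) = (Fintype.card G : ℂ)⁻¹ * ∑ ψ : AddChar G ℂ, ψ (h - g) := by
    show (Fintype.card G : ℂ)⁻¹ * ∑ ψ : AddChar G ℂ, ψ (-g) * ψ h = _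
    congr 1
    refine Finset.sum_congr rfl fun ψ _ => ?_
    rw [← AddChar.map_add_eq_mul]
    congr 1
    abel
  rw [h1, AddChar.sum_apply_eq_ite]
  have hc : (Fintype.card G : ℂ) ≠ 0 := Nat.cast_ne_zero.2 Fintype.card_ne_zero
  by_cases hgh : h = g
  · subst hgh
    simp [hc]
  · rw [if_neg hgh, if_neg (fun h0 => hgh (sub_eq_zero.mp h0)), mul_zero]

lemma linInd_ev : LinearIndependent ℂ (ev : G → AddChar G ℂ → ℂ) := by
  rw [Fintype.linearIndependent_iff]
  intro c hc g
  have h1 := congrArg (coef g) hc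
  rw [map_sum, map_zero] at h1
  simp only [map_smul, coef_ev, smul_eq_mul, mul_ite, mul_one, mul_zero] at h1
  simpa using h1

/-- the span of the `ev g` with `deg g < i` -/
noncomputable def W (deg : G → ℕ) (i : ℕ) : Submodule ℂ (AddChar G ℂ → ℂ) :=
  Submodule.span ℂ (ev '' {g | deg g < i})

lemma mem_W_of_lt (deg : G → ℕ) {i : ℕ} {g : G} (h : deg g < i) : ev g ∈ W deg i :=
  Submodule.subset_span ⟨g, h, rfl⟩

lemma W_mono (deg : G → ℕ) {i j : ℕ} (h : i ≤ j) : W deg i ≤ W deg j := by
  apply Submodule.span_mono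
  apply Set.image_mono
  intro g hg
  exact lt_of_lt_of_le hg h

lemma coef_W (deg : G → ℕ) {i : ℕ} {F : AddChar G ℂ → ℂ} (hF : F ∈ W deg i) {g : G}
    (hg : i ≤ deg g) : coef g F = 0 := by
  induction hF using Submodule.span_induction with
  | mem x hx =>
    obtain ⟨h, hh, rfl⟩ := hx
    rw [coef_ev, if_neg]
    rintro rfl
    exact absurd hh (not_lt.mpr hg)
  | zero => exact map_zero _
  | add x y _ _ hx hy => rw [map_add, hx, hy, add_zero]
  | smul a x _ hx => rw [map_smul, hx, smul_zero]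

lemma expand (deg : G → ℕ) {i : ℕ} {F : AddChar G ℂ → ℂ} (hF : F ∈ W deg i) :
    F = ∑ g : G, coef g F • ev g := by
  induction hF using Submodule.span_induction with
  | mem x hx =>
    obtain ⟨h, hh, rfl⟩ := hx
    simp [coef_ev]
  | zero => simp
  | add x y _ _ hx hy =>
    simp only [map_add, add_smul, Finset.sum_add_distrib]
    rw [← hx, ← hy]
  | smul a x _ hx =>
    simp only [map_smul, smul_assoc]
    rw [← Finset.smul_sum, ← hx]

lemma mem_W_of_coef (deg : G → ℕ) {i j : ℕ} {F : AddChar G ℂ → ℂ} (hF : F ∈ W deg i)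
    (h : ∀ g, j ≤ deg g → coef g F = 0) : F ∈ W deg j := by
  rw [expand deg hF]
  apply Submodule.sum_mem
  intro g _
  by_cases hg : deg g < j
  · exact Submodule.smul_mem _ _ (mem_W_of_lt deg hg)
  · rw [h g (not_lt.mp hg), zero_smul]
    exact Submodule.zero_mem _

lemma finrank_W (deg : G → ℕ) (i : ℕ) :
    Module.finrank ℂ (W deg i) = (Finset.univ.filter (fun g => deg g < i)).card := by
  have h1 : W deg i = Submodule.span ℂ (Set.range (fun x : {g : G // deg g < i} => ev (x : G))) := by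
    rw [W]
    congr 1
    ext F
    constructor
    · rintro ⟨g, hg, rfl⟩
      exact ⟨⟨g, hg⟩, rfl⟩
    · rintro ⟨⟨g, hg⟩, rfl⟩
      exact ⟨g, hg, rfl⟩
  rw [h1, finrank_span_eq_card]
  · rw [Fintype.card_subtype]
  · exact linInd_ev.comp _ Subtype.val_injective

end Fourier

end H413Gor
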