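import Pool.Agent.Helper413.Gor.Poly

set_option autoImplicit false
set_option linter.unusedSectionVars false

namespace H413Gor

open MvPolynomial

variable {G : Type} [AddCommGroup G] [Fintype G] [DecidableEq G]
variable {deg : G → ℕ} {n : ℕ} {e : Fin (n + 1) → G} {g₀ : G} {m : ℕ}

/-- multiplication by a function, as a linear map -/
noncomputable def mulF (l : AddChar G ℂ → ℂ) : (AddChar G ℂ → ℂ) →ₗ[ℂ] (AddChar G ℂ → ℂ) :=
  LinearMap.mulLeft ℂ l

lemma mulF_inj {l : AddChar G ℂ → ℂ} (hl : ∀ ψ, l ψ ≠ 0) : Function.Injective (mulF l) := by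
  intro F F' h
  funext ψ
  have h1 := congrFun h ψ
  have h2 : l ψ * F ψ = l ψ * F' ψ := h1
  exact mul_left_cancel₀ (hl ψ) h2

lemma W_succ_le (D : Data deg e g₀ m) (c : Fin (n + 1) → ℂ) (i : ℕ) :
    Submodule.map (mulF (E e (lin c))) (W deg i) ≤ W deg (i + 1) := by
  rintro _ ⟨F, hF, rfl⟩
  show E e (lin c) * F ∈ _
  cases i with
  | zero =>
    have : F = 0 := by
      have h2 : W deg 0 = ⊥ := by
        rw [W]
        have : {g : G | deg g < 0} = ∅ := by ext g; simp
        rw [this, Set.image_empty, Submodule.span_empty]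
      rw [h2] at hF
      exact (Submodule.mem_bot ℂ).mp hF
    subst this
    rw [mul_zero]
    exact Submodule.zero_mem _
  | succ i =>
    have h1 := W_mul D 1 i
    have h2 : E e (lin c) * F ∈ W deg (1 + 1) * W deg (i + 1) :=
      Submodule.mul_mem_mul (E_mem D 1 (lin_homog c)) hF
    have h3 := h1 h2
    rwa [show 1 + i + 1 = i + 1 + 1 by omega] at h3

lemma card_split (deg : G → ℕ) (i : ℕ) :
    (Finset.univ.filter (fun g => deg g < i + 1)).card =
      (Finset.univ.filter (fun g => deg g < i)).card +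
        (Finset.univ.filter (fun g => deg g = i)).card := by
  rw [← Finset.card_union_of_disjoint]
  · congr 1
    ext g
    simp only [Finset.mem_filter, Finset.mem_univ, true_and, Finset.mem_union]
    omega
  · rw [Finset.disjoint_left]
    intro g hg hg'
    simp only [Finset.mem_filter, Finset.mem_univ, true_and] at hg hg'
    omega

instance fin_H (i : ℕ) : Module.Finite ℂ (homogeneousSubmodule (Fin (n + 1)) ℂ i) :=
  Module.Finite.iff_fg.mpr (homogeneousSubmodule_fg _ _ i)

/-- The quotient map on degree `i` forms. -/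
noncomputable def qmap (e : Fin (n + 1) → G) (c : Fin (n + 1) → ℂ) :
    MvPolynomial (Fin (n + 1)) ℂ →ₗ[ℂ] (MvPolynomial (Fin (n + 1)) ℂ ⧸ J₀ e c) :=
  (Ideal.Quotient.mkₐ ℂ (J₀ e c)).toLinearMap

lemma qmap_eq_zero (c : Fin (n + 1) → ℂ) (f : MvPolynomial (Fin (n + 1)) ℂ) :
    qmap e c f = 0 ↔ f ∈ J₀ e c := by
  show Ideal.Quotient.mk (J₀ e c) f = 0 ↔ _
  exact Ideal.Quotient.eq_zero_iff_mem

/-- Degree `i` part of the Artinian reduction. -/
noncomputable def A (e : Fin (n + 1) → G) (c : Fin (n + 1) → ℂ) (i : ℕ) :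
    Submodule ℂ (MvPolynomial (Fin (n + 1)) ℂ ⧸ J₀ e c) :=
  Submodule.map (qmap e c) (homogeneousSubmodule (Fin (n + 1)) ℂ i)

instance fin_A (c : Fin (n + 1) → ℂ) (i : ℕ) : Module.Finite ℂ (A e c i) := by
  unfold A
  infer_instance

/-- the key dimension count -/
lemma finrank_A (D : Data deg e g₀ m) (c : Fin (n + 1) → ℂ)
    (hc : ∀ ψ, E e (lin c) ψ ≠ 0) (i : ℕ) :
    Module.finrank ℂ (A e c i) = (Finset.univ.filter (fun g => deg g = i)).card := by
  set L := Submodule.map (mulF (E e (lin c))) (W deg i) with hL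
  have hL1 : Module.finrank ℂ L = (Finset.univ.filter (fun g => deg g < i)).card := by
    rw [hL, ← finrank_W]
    exact (LinearEquiv.finrank_eq (Submodule.equivMapOfInjective _ (mulF_inj hc) _)).symm
  have hLW : L ≤ W deg (i + 1) := W_succ_le D c i
  -- rank of the map `W (i+1) → V / L`
  have h1 : Module.finrank ℂ (Submodule.map L.mkQ (W deg (i + 1))) =
      (Finset.univ.filter (fun g => deg g = i)).card := by
    have h2 := LinearMap.finrank_range_add_finrank_ker (L.mkQ.domRestrict (W deg (i + 1)))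
    rw [finrank_W, card_split, LinearMap.range_domRestrict] at h2
    have h3 : LinearMap.ker (L.mkQ.domRestrict (W deg (i + 1))) =
        Submodule.comap (W deg (i + 1)).subtype L := by
      ext x
      simp [LinearMap.domRestrict_apply]
    rw [h3, LinearEquiv.finrank_eq (Submodule.comapSubtypeEquivOfLe hLW), hL1] at h2
    omega
  -- the two maps on the forms of degree `i` have the same kernel
  set H := homogeneousSubmodule (Fin (n + 1)) ℂ i with hH
  have hr1 : Submodule.map L.mkQ (W deg (i + 1)) =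
      LinearMap.range ((L.mkQ ∘ₗ (E e).toLinearMap).domRestrict H) := by
    rw [LinearMap.range_domRestrict, Submodule.map_comp]
    congr 1
    apply le_antisymm
    · intro F hF
      obtain ⟨f, hf, rfl⟩ := exists_of_mem D i hF
      exact ⟨f, hf, rfl⟩
    · rintro _ ⟨f, hf, rfl⟩
      exact E_mem D i hf
  have hr2 : A e c i = LinearMap.range ((qmap e c).domRestrict H) := by
    rw [LinearMap.range_domRestrict]
    rfl
  have hk : LinearMap.ker ((L.mkQ ∘ₗ (E e).toLinearMap).domRestrict H) =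
      LinearMap.ker ((qmap e c).domRestrict H) := by
    ext ⟨f, hf⟩
    rw [LinearMap.mem_ker, LinearMap.mem_ker, LinearMap.domRestrict_apply,
      LinearMap.domRestrict_apply, qmap_eq_zero, mem_J₀_iff D c hf]
    show L.mkQ (E e f) = 0 ↔ _
    rw [Submodule.mkQ_apply, Submodule.Quotient.mk_eq_zero]
    constructor
    · rintro ⟨F, hF, hE⟩
      exact ⟨F, hF, hE.symm⟩
    · rintro ⟨F, hF, hE⟩
      exact ⟨F, hF, hE.symm⟩
  have e1 := LinearMap.finrank_range_add_finrank_ker ((L.mkQ ∘ₗ (E e).toLinearMap).domRestrict H)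
  have e2 := LinearMap.finrank_range_add_finrank_ker ((qmap e c).domRestrict H)
  rw [← hr1, hk, h1] at e1
  rw [← hr2] at e2
  omega

lemma finrank_A_add (c : Fin (n + 1) → ℂ) (i : ℕ)
    (H M : Submodule ℂ (MvPolynomial (Fin (n + 1)) ℂ))
    (hH : ∀ f, f ∈ H ↔ f.IsHomogeneous i) (hM : ∀ f, f ∈ M ↔ (f.IsHomogeneous i ∧ f ∈ J₀ e c)) :
    Module.finrank ℂ H = Module.finrank ℂ (A e c i) + Module.finrank ℂ M := by
  have h1 : H = homogeneousSubmodule (Fin (n + 1)) ℂ i := by
    ext f
    rw [hH, mem_homogeneousSubmodule]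
  subst h1
  have e2 := LinearMap.finrank_range_add_finrank_ker
    ((qmap e c).domRestrict (homogeneousSubmodule (Fin (n + 1)) ℂ i))
  have hr2 : A e c i = LinearMap.range
      ((qmap e c).domRestrict (homogeneousSubmodule (Fin (n + 1)) ℂ i)) := by
    rw [LinearMap.range_domRestrict]
    rfl
  have hMH : M ≤ homogeneousSubmodule (Fin (n + 1)) ℂ i := by
    intro f hf
    exact ((hM f).mp hf).1
  have h3 : LinearMap.ker ((qmap e c).domRestrict (homogeneousSubmodule (Fin (n + 1)) ℂ i)) =
      Submodule.comap (homogeneousSubmodule (Fin (n + 1)) ℂ i).subtype M := by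
    ext ⟨f, hf⟩
    rw [LinearMap.mem_ker, LinearMap.domRestrict_apply, qmap_eq_zero, Submodule.mem_comap]
    show _ ↔ f ∈ M
    rw [hM]
    exact ⟨fun h => ⟨hf, h⟩, fun h => h.2⟩
  rw [← hr2, h3, LinearEquiv.finrank_eq (Submodule.comapSubtypeEquivOfLe hMH)] at e2
  exact e2.symm

end H413Gor
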