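import Pool.Agent.Helper413.Gor.Socle

set_option autoImplicit false
set_option linter.unusedSectionVars false

namespace H413Gor

/-- The group `(ℤ/5)⁴`. -/
abbrev GG := ZMod 5 × ZMod 5 × ZMod 5 × ZMod 5

/-- sum of the first three digits -/
def sg (g : GG) : ℕ := g.1.val + g.2.1.val + g.2.2.1.val

/-- the degree function -/
def dg (g : GG) : ℕ :=
  if sg g ≤ g.2.2.2.val then g.2.2.2.val
  else if sg g ≤ 7 + g.2.2.2.val then g.2.2.2.val + 1 else g.2.2.2.val + 2

lemma card1 : (Finset.univ.filter (fun g : GG => dg g ≤ 1)).card = 94 := by decide +kernel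
lemma card2 : (Finset.univ.filter (fun g : GG => dg g = 2)).card = 146 := by decide +kernel
lemma card3 : (Finset.univ.filter (fun g : GG => dg g = 3)).card = 145 := by decide +kernel
lemma card4 : (Finset.univ.filter (fun g : GG => dg g = 4)).card = 146 := by decide +kernel

lemma dg0 : ∀ g : GG, dg g = 0 ↔ g = 0 := by decide +kernel

lemma dg_anti : ∀ g : GG, dg g + dg ((4, 4, 4, 4) - g) = 6 := by decide +kernel

lemma dg_step : ∀ g : GG, g ≠ 0 → ∃ a : GG, dg a ≤ 1 ∧ dg (g - a) + 1 = dg g := by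
  decide +kernel

lemma dg_sub (g h : GG) : dg (g + h) ≤ dg g + dg h := by
  obtain ⟨x1, x2, x3, x4⟩ := g
  obtain ⟨y1, y2, y3, y4⟩ := h
  have h1 : (x1 + y1).val ≤ x1.val + y1.val := ZMod.val_add_le _ _
  have h2 : (x2 + y2).val ≤ x2.val + y2.val := ZMod.val_add_le _ _
  have h3 : (x3 + y3).val ≤ x3.val + y3.val := ZMod.val_add_le _ _
  have h4 : (x4 + y4).val = (x4.val + y4.val) % 5 := ZMod.val_add _ _
  have b4 := ZMod.val_lt x4
  have c4 := ZMod.val_lt y4
  simp only [dg, sg, Prod.mk_add_mk]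
  split_ifs <;> omega

/-- The finite set of exponents. -/
noncomputable def eqv : Fin (93 + 1) ≃ {g : GG // g ∈ Finset.univ.filter (fun g : GG => dg g ≤ 1)} :=
  (Finset.equivFinOfCardEq card1).symm

noncomputable def ee (j : Fin (93 + 1)) : GG := (eqv j).1

lemma dg_ee (j : Fin (93 + 1)) : dg (ee j) ≤ 1 := by
  have := (eqv j).2
  rw [Finset.mem_filter] at this
  exact this.2

lemma exists_ee (a : GG) (ha : dg a ≤ 1) : ∃ j, ee j = a := by
  refine ⟨eqv.symm ⟨a, Finset.mem_filter.mpr ⟨Finset.mem_univ _, ha⟩⟩, ?_⟩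
  unfold ee
  rw [Equiv.apply_symm_apply]

theorem theData : Data dg ee (4, 4, 4, 4) 6 where
  h0 := dg0
  hsub := dg_sub
  he := dg_ee
  hstep := by
    intro g k hk
    have hg : g ≠ 0 := by
      intro h
      rw [(dg0 g).mpr h] at hk
      omega
    obtain ⟨a, ha, h⟩ := dg_step g hg
    obtain ⟨j, hj⟩ := exists_ee a ha
    exact ⟨j, by rw [hj]; omega⟩
  hanti := dg_anti
  hzero := exists_ee 0 (by rw [(dg0 0).mpr rfl]; omega)

end H413Gor
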