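import Pool.Agent.Helper413.Gor.Core

set_option autoImplicit false
set_option linter.unusedSectionVars false

namespace H413Gor

open MvPolynomial

variable {G : Type} [AddCommGroup G] [Fintype G] [DecidableEq G]

structure Data (deg : G → ℕ) {n : ℕ} (e : Fin (n + 1) → G) (g₀ : G) (m : ℕ) : Prop where
  h0 : ∀ g, deg g = 0 ↔ g = 0
  hsub : ∀ g h, deg (g + h) ≤ deg g + deg h
  he : ∀ j, deg (e j) ≤ 1
  hstep : ∀ g k, deg g = k + 1 → ∃ j, deg (g - e j) = k
  hanti : ∀ g, deg g + deg (g₀ - g) = m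
  hzero : ∃ j, e j = 0

/-- evaluation at all the points -/
noncomputable def E {n : ℕ} (e : Fin (n + 1) → G) :
    MvPolynomial (Fin (n + 1)) ℂ →ₐ[ℂ] (AddChar G ℂ → ℂ) :=
  aeval (fun j => ev (e j))

/-- the points -/
noncomputable def pt {n : ℕ} (e : Fin (n + 1) → G) (ψ : AddChar G ℂ) : Fin (n + 1) → ℂ :=
  fun j => ψ (e j)

lemma E_apply {n : ℕ} (e : Fin (n + 1) → G) (f : MvPolynomial (Fin (n + 1)) ℂ)
    (ψ : AddChar G ℂ) : E e f ψ = eval (pt e ψ) f := by
  have h1 : (Pi.evalAlgHom ℂ (fun _ : AddChar G ℂ => ℂ) ψ).comp (E e) = aeval (pt e ψ) := by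
    apply MvPolynomial.algHom_ext
    intro j
    simp [E, ev, pt]
  have h2 := congrArg (fun F => F f) h1
  simp only [AlgHom.comp_apply] at h2
  rw [MvPolynomial.aeval_eq_eval] at h2
  exact h2

lemma E_X {n : ℕ} (e : Fin (n + 1) → G) (j : Fin (n + 1)) : E e (X j) = ev (e j) := by
  simp [E]

section
variable {deg : G → ℕ} {n : ℕ} {e : Fin (n + 1) → G} {g₀ : G} {m : ℕ}

lemma W_mul (D : Data deg e g₀ m) (i j : ℕ) : W deg (i + 1) * W deg (j + 1) ≤ W deg (i + j + 1) := by
  rw [W, W, Submodule.span_mul_span]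
  apply Submodule.span_le.mpr
  rintro F ⟨_, ⟨g, hg, rfl⟩, _, ⟨h, hh, rfl⟩, rfl⟩
  show ev g * ev h ∈ W deg (i + j + 1)
  rw [← ev_add]
  apply mem_W_of_lt
  have h1 : deg g < i + 1 := hg
  have h2 : deg h < j + 1 := hh
  have h3 := D.hsub g h
  omega

lemma E_mem (D : Data deg e g₀ m) (i : ℕ) {f : MvPolynomial (Fin (n + 1)) ℂ}
    (hf : f.IsHomogeneous i) : E e f ∈ W deg (i + 1) := by
  have key : Submodule.map (E e).toLinearMap (homogeneousSubmodule (Fin (n + 1)) ℂ i)
      ≤ W deg (i + 1) := by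
    clear hf f
    induction i with
    | zero =>
      rintro _ ⟨f, hf, rfl⟩
      rw [homogeneousSubmodule_zero] at hf
      obtain ⟨c, hc⟩ := Submodule.mem_one.mp hf
      rw [← hc]
      show E e (algebraMap _ _ c) ∈ _
      rw [AlgHom.commutes, Algebra.algebraMap_eq_smul_one, ← ev_zero]
      exact Submodule.smul_mem _ _ (mem_W_of_lt deg (by rw [(D.h0 0).mpr rfl]; omega))
    | succ i ih =>
      rw [← homogeneousSubmodule_one_pow, pow_succ, homogeneousSubmodule_one_pow,
        Submodule.map_mul]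
      refine le_trans ?_ (W_mul D i 1)
      refine mul_le_mul' ih ?_
      rw [homogeneousSubmodule_one_eq_span_X, Submodule.map_span]
      apply Submodule.span_le.mpr
      rintro _ ⟨_, ⟨j, rfl⟩, rfl⟩
      show E e (X j) ∈ _
      rw [E_X]
      exact mem_W_of_lt deg (by have := D.he j; omega)
  exact key ⟨f, hf, rfl⟩

lemma exists_of_deg_le (D : Data deg e g₀ m) (i : ℕ) (g : G) (hg : deg g ≤ i) :
    ∃ f : MvPolynomial (Fin (n + 1)) ℂ, f.IsHomogeneous i ∧ E e f = ev g := by
  induction i generalizing g with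
  | zero =>
    have : g = 0 := (D.h0 g).mp (by omega)
    subst this
    exact ⟨1, isHomogeneous_one _ _, by rw [map_one, ev_zero]⟩
  | succ i ih =>
    by_cases h : deg g ≤ i
    · obtain ⟨f, hf, hE⟩ := ih g h
      obtain ⟨j, hj⟩ := D.hzero
      refine ⟨X j * f, ?_, ?_⟩
      · have h5 := (isHomogeneous_X ℂ j).mul hf
        rwa [Nat.add_comm 1 i] at h5
      · rw [map_mul, E_X, hE, hj, ev_zero, one_mul]
    · obtain ⟨j, hj⟩ := D.hstep g i (by omega)
      obtain ⟨f, hf, hE⟩ := ih (g - e j) (by omega)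
      refine ⟨X j * f, ?_, ?_⟩
      · have h5 := (isHomogeneous_X ℂ j).mul hf
        rwa [Nat.add_comm 1 i] at h5
      · rw [map_mul, E_X, hE, ← ev_add]
        congr 1
        abel

lemma exists_of_mem (D : Data deg e g₀ m) (i : ℕ) {F : AddChar G ℂ → ℂ} (hF : F ∈ W deg (i + 1)) :
    ∃ f : MvPolynomial (Fin (n + 1)) ℂ, f.IsHomogeneous i ∧ E e f = F := by
  induction hF using Submodule.span_induction with
  | mem x hx =>
    obtain ⟨g, hg, rfl⟩ := hx
    exact exists_of_deg_le D i g (Nat.lt_succ_iff.mp hg)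
  | zero => exact ⟨0, isHomogeneous_zero _ _ _, map_zero _⟩
  | add x y _ _ hx hy =>
    obtain ⟨f, hf, rfl⟩ := hx
    obtain ⟨f', hf', rfl⟩ := hy
    exact ⟨f + f', hf.add hf', map_add _ _ _⟩
  | smul a x _ hx =>
    obtain ⟨f, hf, rfl⟩ := hx
    refine ⟨C a * f, hf.C_mul a, ?_⟩
    rw [← smul_eq_C_mul, map_smul]

/-- The vanishing ideal. -/
noncomputable def I₀ (e : Fin (n + 1) → G) : Ideal (MvPolynomial (Fin (n + 1)) ℂ) :=
  Ideal.span {f | ∃ d : ℕ, f.IsHomogeneous d ∧ E e f = 0}

attribute [local instance] MvPolynomial.gradedAlgebra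

lemma I₀_homog : (I₀ e).IsHomogeneous (homogeneousSubmodule (Fin (n + 1)) ℂ) := by
  apply Ideal.homogeneous_span
  rintro f ⟨d, hd, _⟩
  exact ⟨d, hd⟩

lemma E_I₀ {f : MvPolynomial (Fin (n + 1)) ℂ} (hf : f ∈ I₀ e) : E e f = 0 := by
  have h1 : I₀ e ≤ RingHom.ker (E e) := by
    apply Ideal.span_le.mpr
    rintro f ⟨d, _, h⟩
    exact h
  exact h1 hf

lemma mem_I₀_of_homog {f : MvPolynomial (Fin (n + 1)) ℂ} {i : ℕ} (hf : f.IsHomogeneous i)
    (h : E e f = 0) : f ∈ I₀ e := Ideal.subset_span ⟨i, hf, h⟩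

lemma mem_I₀_iff (f : MvPolynomial (Fin (n + 1)) ℂ) :
    f ∈ I₀ e ↔ ∀ i, E e (homogeneousComponent i f) = 0 := by
  rw [mem_iff_homogeneousComponent_mem I₀_homog f]
  constructor
  · intro h i
    exact E_I₀ (h i)
  · intro h i
    exact mem_I₀_of_homog (homogeneousComponent_isHomogeneous i f) (h i)

/-- linear form -/
noncomputable def lin (c : Fin (n + 1) → ℂ) : MvPolynomial (Fin (n + 1)) ℂ :=
  ∑ j, C (c j) * X j

lemma lin_homog (c : Fin (n + 1) → ℂ) : (lin c).IsHomogeneous 1 := by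
  apply IsHomogeneous.sum
  intro j _
  exact isHomogeneous_C_mul_X _ _

noncomputable def J₀ (e : Fin (n + 1) → G) (c : Fin (n + 1) → ℂ) :
    Ideal (MvPolynomial (Fin (n + 1)) ℂ) :=
  I₀ e ⊔ Ideal.span {lin c}

lemma J₀_homog (c : Fin (n + 1) → ℂ) :
    (J₀ e c).IsHomogeneous (homogeneousSubmodule (Fin (n + 1)) ℂ) := by
  apply Ideal.IsHomogeneous.sup I₀_homog
  apply Ideal.homogeneous_span
  rintro f hf
  rw [Set.mem_singleton_iff] at hf
  subst hf
  exact ⟨1, lin_homog c⟩

lemma comp_mul (c : Fin (n + 1) → ℂ) (q : MvPolynomial (Fin (n + 1)) ℂ) (i : ℕ) :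
    homogeneousComponent (i + 1) (lin c * q) = lin c * homogeneousComponent i q := by
  conv_lhs => rw [← sum_homogeneousComponent q, Finset.mul_sum, map_sum]
  have h1 : ∀ k, homogeneousComponent (i + 1) (lin c * homogeneousComponent k q)
      = if k = i then lin c * homogeneousComponent i q else 0 := by
    intro k
    have h2 : (lin c * homogeneousComponent k q).IsHomogeneous (1 + k) :=
      (lin_homog c).mul (homogeneousComponent_isHomogeneous k q)
    rw [homogeneousComponent_of_mem h2]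
    by_cases hk : k = i
    · subst hk
      rw [if_pos (by omega), if_pos rfl]
    · rw [if_neg (by omega), if_neg hk]
  rw [Finset.sum_congr rfl (fun k _ => h1 k), Finset.sum_ite_eq']
  split_ifs with h
  · rfl
  · rw [Finset.mem_range, not_lt] at h
    rw [homogeneousComponent_eq_zero i q (by omega), mul_zero]

lemma comp_mul_zero (c : Fin (n + 1) → ℂ) (q : MvPolynomial (Fin (n + 1)) ℂ) :
    homogeneousComponent 0 (lin c * q) = 0 := by
  conv_lhs => rw [← sum_homogeneousComponent q, Finset.mul_sum, map_sum]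
  apply Finset.sum_eq_zero
  intro k _
  have h2 : (lin c * homogeneousComponent k q).IsHomogeneous (1 + k) :=
    (lin_homog c).mul (homogeneousComponent_isHomogeneous k q)
  rw [homogeneousComponent_of_mem h2, if_neg (by omega)]

/-- Membership in `J₀` for homogeneous elements. -/
lemma mem_J₀_iff (D : Data deg e g₀ m) (c : Fin (n + 1) → ℂ) {i : ℕ}
    {f : MvPolynomial (Fin (n + 1)) ℂ} (hf : f.IsHomogeneous i) :
    f ∈ J₀ e c ↔ ∃ F ∈ W deg i, E e f = E e (lin c) * F := by
  constructor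
  · intro h
    obtain ⟨f1, hf1, f2, hf2, rfl⟩ := Submodule.mem_sup.mp h
    obtain ⟨q, rfl⟩ := Ideal.mem_span_singleton'.mp hf2
    have h1 : homogeneousComponent i (f1 + q * lin c) = f1 + q * lin c :=
      homogeneousComponent_eq_self hf
    rw [mul_comm q] at h1 ⊢
    rw [← h1, map_add, map_add, (mem_I₀_iff f1).mp hf1 i, zero_add]
    cases i with
    | zero =>
      refine ⟨0, Submodule.zero_mem _, ?_⟩
      rw [comp_mul_zero, map_zero, mul_zero]
    | succ i =>
      rw [comp_mul, map_mul]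
      exact ⟨_, E_mem D i (homogeneousComponent_isHomogeneous i q), rfl⟩
  · rintro ⟨F, hF, hE⟩
    cases i with
    | zero =>
      have : F = 0 := by
        have h2 : W deg 0 = ⊥ := by
          rw [W]
          have : {g : G | deg g < 0} = ∅ := by ext g; simp
          rw [this, Set.image_empty, Submodule.span_empty]
        rw [h2] at hF
        exact (Submodule.mem_bot ℂ).mp hF
      subst this
      rw [mul_zero] at hE
      exact Submodule.mem_sup_left (mem_I₀_of_homog hf hE)
    | succ i =>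
      obtain ⟨q, hq, rfl⟩ := exists_of_mem D i hF
      have h3 : f - lin c * q ∈ I₀ e := by
        apply mem_I₀_of_homog (i := i + 1)
        · apply hf.sub
          have h5 := (lin_homog c).mul hq
          rwa [Nat.add_comm 1 i] at h5
        · rw [map_sub, hE, map_mul, sub_self]
      have h4 : f = (f - lin c * q) + q * lin c := by ring
      rw [h4]
      apply Submodule.add_mem_sup h3
      exact Ideal.mul_mem_left _ _ (Ideal.mem_span_singleton_self _)

lemma mem_J₀_iff' (c : Fin (n + 1) → ℂ) (f : MvPolynomial (Fin (n + 1)) ℂ) :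
    f ∈ J₀ e c ↔ ∀ i, homogeneousComponent i f ∈ J₀ e c :=
  mem_iff_homogeneousComponent_mem (J₀_homog c) f

end

end H413Gor
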