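import Pool.Agent.Helper413.Gor.Dim

set_option autoImplicit false
set_option linter.unusedSectionVars false

namespace H413Gor

open MvPolynomial

variable {G : Type} [AddCommGroup G] [Fintype G] [DecidableEq G]
variable {deg : G → ℕ} {n : ℕ} {e : Fin (n + 1) → G} {g₀ : G} {m : ℕ}

/-- the special linear form: a coordinate `X j₀` with `e j₀ = 0` -/
lemma lin_single (j : Fin (n + 1)) : lin (Pi.single j (1 : ℂ)) = X j := by
  unfold lin
  rw [Finset.sum_eq_single j]
  · simp
  · intro k _ hk
    rw [Pi.single_eq_of_ne hk]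
    simp
  · intro h
    exact absurd (Finset.mem_univ j) h

lemma coef_ev_mul (g h : G) (F : AddChar G ℂ → ℂ) : coef (g + h) (ev h * F) = coef g F := by
  show (Fintype.card G : ℂ)⁻¹ * ∑ ψ : AddChar G ℂ, ψ (-(g + h)) * (ψ h * F ψ) =
    (Fintype.card G : ℂ)⁻¹ * ∑ ψ : AddChar G ℂ, ψ (-g) * F ψ
  congr 1
  refine Finset.sum_congr rfl fun ψ _ => ?_
  rw [← mul_assoc, ← AddChar.map_add_eq_mul]
  congr 2
  abel

lemma X_mul_comp (j : Fin (n + 1)) (q : MvPolynomial (Fin (n + 1)) ℂ) (i : ℕ) :
    homogeneousComponent (i + 1) (X j * q) = X j * homogeneousComponent i q := by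
  have := comp_mul (Pi.single j (1 : ℂ)) q i
  rwa [lin_single] at this

/-- for the special linear form, membership in `J₀` -/
lemma mem_J₀_special (D : Data deg e g₀ m) {j₀ : Fin (n + 1)} (hj₀ : e j₀ = 0) {i : ℕ}
    {f : MvPolynomial (Fin (n + 1)) ℂ} (hf : f.IsHomogeneous i) :
    f ∈ J₀ e (Pi.single j₀ 1) ↔ E e f ∈ W deg i := by
  rw [mem_J₀_iff D _ hf, lin_single, E_X, hj₀, ev_zero]
  constructor
  · rintro ⟨F, hF, hE⟩
    rw [hE, one_mul]
    exact hF
  · intro h
    exact ⟨_, h, by rw [one_mul]⟩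

lemma deg_g₀ (D : Data deg e g₀ m) : deg g₀ = m := by
  have h := D.hanti g₀
  rw [sub_self, (D.h0 0).mpr rfl] at h
  omega

theorem socle (D : Data deg e g₀ m) {j₀ : Fin (n + 1)} (hj₀ : e j₀ = 0) :
    ∃ g : MvPolynomial (Fin (n + 1)) ℂ, g ∉ J₀ e (Pi.single j₀ 1) ∧
      (∀ j, X j * g ∈ J₀ e (Pi.single j₀ 1)) ∧
      ∀ f : MvPolynomial (Fin (n + 1)) ℂ, (∀ j, X j * f ∈ J₀ e (Pi.single j₀ 1)) →
        ∃ a : ℂ, f - C a * g ∈ J₀ e (Pi.single j₀ 1) := by
  obtain ⟨g, hg, hE⟩ := exists_of_deg_le D m g₀ (le_of_eq (deg_g₀ D))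
  refine ⟨g, ?_, ?_, ?_⟩
  · intro h
    rw [mem_J₀_special D hj₀ hg, hE] at h
    have h1 := coef_W deg h (g := g₀) (le_of_eq (deg_g₀ D).symm)
    rw [coef_ev, if_pos rfl] at h1
    exact one_ne_zero h1
  · intro j
    have h1 : (X j * g).IsHomogeneous (m + 1) := by
      have h5 := (isHomogeneous_X ℂ j).mul hg
      rwa [Nat.add_comm 1 m] at h5
    rw [mem_J₀_special D hj₀ h1, map_mul, E_X, hE, ← ev_add]
    apply mem_W_of_lt
    have := D.hanti (e j + g₀)
    omega
  · intro f hf
    refine ⟨coef g₀ (E e (homogeneousComponent m f)), ?_⟩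
    rw [mem_J₀_iff']
    intro i
    rw [mem_J₀_special D hj₀ (homogeneousComponent_isHomogeneous i _)]
    have hmem : E e (homogeneousComponent i (f - C (coef g₀ (E e (homogeneousComponent m f))) * g))
        ∈ W deg (i + 1) := E_mem D i (homogeneousComponent_isHomogeneous i _)
    apply mem_W_of_coef deg hmem
    intro h hh
    by_cases hlt : i + 1 ≤ deg h
    · exact coef_W deg hmem hlt
    · have hdeg : deg h = i := by omega
      clear hlt
      rw [map_sub, homogeneousComponent_C_mul, homogeneousComponent_of_mem hg, map_sub, map_sub]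
      by_cases hg0 : h = g₀
      · subst hg0
        have hi : i = m := by rw [← hdeg, deg_g₀ D]
        subst hi
        rw [if_pos rfl, ← smul_eq_C_mul, map_smul, map_smul, hE, coef_ev, if_pos rfl, smul_eq_mul,
          mul_one, sub_self]
      · have hz : coef h (E e (C (coef g₀ (E e (homogeneousComponent m f))) *
            (if i = m then g else 0))) = 0 := by
          rw [← smul_eq_C_mul, map_smul, map_smul]
          split_ifs
          · rw [hE, coef_ev, if_neg (Ne.symm hg0), smul_zero]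
          · rw [map_zero, map_zero, smul_zero]
        rw [hz, sub_zero]
        -- find the direction
        have h1 : deg (g₀ - h) ≠ 0 := by
          intro h0
          exact hg0 (sub_eq_zero.mp ((D.h0 _).mp h0)).symm
        obtain ⟨k, hk⟩ := Nat.exists_eq_succ_of_ne_zero h1
        obtain ⟨j, hj⟩ := D.hstep _ k hk
        have h2 : deg (h + e j) = i + 1 := by
          have a1 := D.hanti h
          have a2 := D.hanti (h + e j)
          rw [show g₀ - (h + e j) = g₀ - h - e j by abel, hj] at a2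
          have hk' : deg (g₀ - h) = k + 1 := hk
          omega
        have h3 := (mem_J₀_iff' _ _).mp (hf j) (i + 1)
        rw [mem_J₀_special D hj₀ (homogeneousComponent_isHomogeneous (i + 1) _), X_mul_comp,
          map_mul, E_X] at h3
        have h4 := coef_W deg h3 (g := h + e j) (le_of_eq h2.symm)
        rwa [coef_ev_mul] at h4

end H413Gor
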