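import Pool.Agent.Helper413.Gor.Exa

set_option autoImplicit false
set_option linter.unusedSectionVars false

namespace H413Gor

open MvPolynomial

variable {G : Type} [AddCommGroup G] [Fintype G] [DecidableEq G]
variable {deg : G → ℕ} {n : ℕ} {e : Fin (n + 1) → G} {g₀ : G} {m : ℕ}

lemma eval_smul_homog {f : MvPolynomial (Fin (n + 1)) ℂ} {i : ℕ} (hf : f.IsHomogeneous i)
    (t : ℂ) (p : Fin (n + 1) → ℂ) : eval (t • p) f = t ^ i * eval p f := by
  rw [eval_eq, eval_eq, Finset.mul_sum]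
  refine Finset.sum_congr rfl fun d hd => ?_
  have h1 : ∏ j ∈ d.support, (t • p) j ^ d j = t ^ i * ∏ j ∈ d.support, p j ^ d j := by
    have h2 : ∀ j, (t • p) j ^ d j = t ^ d j * p j ^ d j := by
      intro j
      rw [Pi.smul_apply, smul_eq_mul, mul_pow]
    rw [Finset.prod_congr rfl (fun j _ => h2 j), Finset.prod_mul_distrib, Finset.prod_pow_eq_pow_sum,
      ← hf.degree_eq_sum_deg_support hd]
  rw [h1]
  ring

/-- the set of points -/
noncomputable def ptSet (e : Fin (n + 1) → G) : Finset (Fin (n + 1) → ℂ) :=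
  Finset.univ.image (pt e)

lemma mem_ptSet (p : Fin (n + 1) → ℂ) : p ∈ ptSet e ↔ ∃ ψ : AddChar G ℂ, pt e ψ = p := by
  simp [ptSet]

lemma ptSet_nonempty : (ptSet e).Nonempty := ⟨pt e 0, (mem_ptSet _).mpr ⟨0, rfl⟩⟩

lemma E_eq_zero_iff (f : MvPolynomial (Fin (n + 1)) ℂ) :
    E e f = 0 ↔ ∀ p ∈ ptSet e, eval p f = 0 := by
  constructor
  · intro h p hp
    obtain ⟨ψ, rfl⟩ := (mem_ptSet p).mp hp
    rw [← E_apply, h]
    rfl
  · intro h
    funext ψ
    rw [E_apply]
    exact h _ ((mem_ptSet _).mpr ⟨ψ, rfl⟩)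

lemma eval_expand (f : MvPolynomial (Fin (n + 1)) ℂ) (t : ℂ) (p : Fin (n + 1) → ℂ) :
    eval (t • p) f = ∑ i ∈ Finset.range (f.totalDegree + 1),
      t ^ i * eval p (homogeneousComponent i f) := by
  conv_lhs => rw [← sum_homogeneousComponent f, map_sum]
  exact Finset.sum_congr rfl fun i _ =>
    eval_smul_homog (homogeneousComponent_isHomogeneous i f) t p

lemma mem_I₀_iff_eval (f : MvPolynomial (Fin (n + 1)) ℂ) :
    f ∈ I₀ e ↔ ∀ p ∈ ptSet e, ∀ t : ℂ, eval (t • p) f = 0 := by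
  rw [mem_I₀_iff]
  constructor
  · intro h p hp t
    rw [eval_expand]
    apply Finset.sum_eq_zero
    intro i _
    rw [(E_eq_zero_iff _).mp (h i) p hp, mul_zero]
  · intro h i
    rw [E_eq_zero_iff]
    intro p hp
    let P : Polynomial ℂ := ∑ i ∈ Finset.range (f.totalDegree + 1),
      Polynomial.monomial i (eval p (homogeneousComponent i f))
    have hP : P = 0 := by
      apply Polynomial.funext
      intro t
      rw [Polynomial.eval_zero, ← h p hp t, eval_expand, Polynomial.eval_finset_sum]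
      refine Finset.sum_congr rfl fun i _ => ?_
      rw [Polynomial.eval_monomial, mul_comm]
    by_cases hi : i ∈ Finset.range (f.totalDegree + 1)
    · have h1 := congrArg (fun Q => Polynomial.coeff Q i) hP
      simp only [P, Polynomial.finset_sum_coeff, Polynomial.coeff_monomial,
        Polynomial.coeff_zero] at h1
      rw [Finset.sum_ite_eq' _ i] at h1
      rwa [if_pos hi] at h1
    · rw [Finset.mem_range, not_lt] at hi
      rw [homogeneousComponent_eq_zero i f (by omega), map_zero]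

lemma pt_ne_zero {j₀ : Fin (n + 1)} (hj₀ : e j₀ = 0) (p : Fin (n + 1) → ℂ) (hp : p ∈ ptSet e) :
    p ≠ 0 := by
  obtain ⟨ψ, rfl⟩ := (mem_ptSet p).mp hp
  intro h
  have := congrFun h j₀
  simp [pt, hj₀] at this

lemma special_ne_zero {j₀ : Fin (n + 1)} (hj₀ : e j₀ = 0) (ψ : AddChar G ℂ) :
    E e (lin (Pi.single j₀ 1)) ψ ≠ 0 := by
  rw [lin_single, E_X, hj₀, ev_zero]
  exact one_ne_zero

end H413Gor
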